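import Pool.Agent.H84.SF.Fin
import Pool.Agent.H32.SL.DGC

/-!
# DGZ: the degree of a map to the plane of bounded degree over its image
-/

set_option autoImplicit false

namespace Pool.Agent.H10.SF

open MvPolynomial SC
open Pool.Agent.H27.LV Pool.Agent.H84.SM Pool.Agent.H84.SL
open Pool.Agent.H84.SF

/-- the degree of a field extension in which all elements have bounded degree -/
theorem dep_finrank {k K : Type} [Field k] [CharZero k] [Field K] [Algebra k K]
    {F : IntermediateField k K} (L : IntermediateField k K) (E : IntermediateField F K)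
    [Module.Finite F K] (n : ℕ) (hdep : Pool.Agent.H15.FOS.Dep L n)
    (hLE : ∀ z ∈ L, z ∈ E) : Module.finrank E K ≤ n := by
  have : Module.Finite E K := Module.Finite.right F E K
  have : CharZero F := charZero_of_injective_algebraMap (algebraMap k F).injective
  have : CharZero E := charZero_of_injective_algebraMap (algebraMap F E).injective
  obtain ⟨t, ht⟩ := Field.exists_primitive_element E K
  obtain ⟨a, ha, ⟨i, hi, hai⟩, hs⟩ := hdep t
  obtain ⟨P, hP⟩ : ∃ P : Polynomial E, P = ∑ i ∈ Finset.range (n + 1),
      Polynomial.C (⟨a i, hLE _ (ha i)⟩ : E) * Polynomial.X ^ i := ⟨_, rfl⟩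
  have hc : P.coeff i = ⟨a i, hLE _ (ha i)⟩ := by
    rw [hP, Polynomial.finsetSum_coeff, Finset.sum_eq_single i]
    · simp
    · intro b _ hb
      rw [Polynomial.coeff_C_mul, Polynomial.coeff_X_pow, if_neg (Ne.symm hb), mul_zero]
    · intro h
      exact absurd (Finset.mem_range.2 (by omega)) h
  have hP0 : P ≠ 0 := by
    intro h
    rw [h, Polynomial.coeff_zero] at hc
    exact hai (congrArg Subtype.val hc).symm
  have hPt : Polynomial.aeval t P = 0 := by
    rw [hP, map_sum, ← hs]
    refine Finset.sum_congr rfl fun b _ => ?_
    rw [map_mul, Polynomial.aeval_C, map_pow, Polynomial.aeval_X]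
    rfl
  have hPd : P.natDegree ≤ n := by
    rw [hP]
    refine Polynomial.natDegree_sum_le_of_forall_le _ _ fun b hb => ?_
    refine (Polynomial.natDegree_C_mul_X_pow_le _ _).trans ?_
    have := Finset.mem_range.1 hb
    omega
  have hint : IsIntegral E t := IsIntegral.of_finite E t
  rw [← IntermediateField.finrank_top', ← ht, IntermediateField.adjoin.finrank hint]
  exact (Polynomial.natDegree_le_natDegree (minpoly.degree_le_of_ne_zero E t hP0 hPt)).trans hPd

theorem pf_DGZ : T_DGZ := by
  intro k K _ _ _ _ _ _ htr x n ⟨j, hj⟩ hdep N Φ hΦ0 hΦ hΦx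
  by_cases hdeg : deg k x = 0
  · rw [hdeg]
    exact Nat.zero_le _
  have hfin : {v : DV k K | poleOrder v x ≠ 0}.Finite := pfi k K htr (Fin 3) x
  choose c hc1 hc2 using fun v => Pool.Agent.H32.SL.dgc_lead k K htr v x
  obtain ⟨a, ha0, ha⟩ := Pool.Agent.H32.SL.dgc_gen k hfin.toFinset c (fun v hv => hc1 v (by
    have := (Set.Finite.mem_toFinset hfin).1 hv
    exact Nat.pos_of_ne_zero this))
  obtain ⟨f, hf⟩ : ∃ f, f = ∑ i, algebraMap k K (a i) * x i := ⟨_, rfl⟩
  have hpole : ∀ v : DV k K, max 0 (-(v.ord f)) = (poleOrder v x : ℤ) := by
    intro v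
    rw [hf]
    exact hc2 v a fun hpos => ha v ((Set.Finite.mem_toFinset hfin).2 (by
      change poleOrder v x ≠ 0
      omega))
  -- `f` is transcendental
  have hex : ∃ v : DV k K, 0 < poleOrder v x := by
    by_contra hcon
    apply hdeg
    unfold deg
    have : ∀ v : DV k K, poleOrder v x = 0 := fun v => by
      by_contra h
      exact hcon ⟨v, Nat.pos_of_ne_zero h⟩
    simp [this]
  have hft : Transcendental k f := by
    intro halg
    have hint : IsIntegral k f := halg.isIntegral
    have h1 : (minpoly k f).degree = 1 := IsAlgClosed.degree_eq_one_of_irreducible k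
      (minpoly.irreducible hint)
    obtain ⟨b, hb⟩ := minpoly.mem_range_of_degree_eq_one k f h1
    obtain ⟨v, hv⟩ := hex
    have h2 := hpole v
    rw [← hb, v.ord_base] at h2
    simp only [neg_zero, max_self] at h2
    omega
  have hfd := Pool.Agent.H36.SC.fin_of_transc htr hft
  have hV5 := (Pool.Agent.H76.KN.v5 k K f hft hfd).2.2
  have hsum : ∑ᶠ v : DV k K, (v.deg : ℤ) * max 0 (-(v.ord f)) = (deg k x : ℤ) := by
    unfold deg
    rw [← Nat.coe_castAddMonoidHom, (Nat.castAddMonoidHom ℤ).map_finsum hfin]
    refine finsum_congr fun v => ?_
    rw [hpole v, (rat k K htr v).1]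
    simp
  rw [hsum] at hV5
  have hdegN : deg k x = Module.finrank (IntermediateField.adjoin k {f}) K := by exact_mod_cast hV5
  rw [hdegN]
  -- the coordinates
  obtain ⟨l, m, hjl, hjm, hlm, hall⟩ : ∃ l m : Fin 3, j ≠ l ∧ j ≠ m ∧ l ≠ m ∧
      ∀ i, i = j ∨ i = l ∨ i = m := by
    clear hf ha0 ha hpole hft hfd hV5 hsum hdegN hΦx hdep hdeg hfin hc1 hc2 hex hj
    revert j
    decide
  have hsum3 : ∀ {M : Type} [AddCommMonoid M] (g : Fin 3 → M), ∑ i, g i = g j + (g l + g m) := by
    intro M _ g
    have hu : (Finset.univ : Finset (Fin 3)) = {j, l, m} := by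
      ext i
      simpa using hall i
    rw [hu, Finset.sum_insert (by simp [hjl, hjm]), Finset.sum_pair hlm]
  obtain ⟨F, hF⟩ : ∃ F, F = IntermediateField.adjoin k {f} := ⟨_, rfl⟩
  rw [← hF] at hfd ⊢
  have hfF : f ∈ F := by
    rw [hF]
    exact IntermediateField.mem_adjoin_simple_self k f
  obtain ⟨fF, hfF'⟩ : ∃ g : F, (g : K) = f := ⟨⟨f, hfF⟩, rfl⟩
  have hal : algebraMap k K (a l) ≠ 0 := by
    rw [Ne, map_eq_zero]
    exact ha0 l
  have halF : algebraMap k F (a l) ≠ 0 := by
    rw [Ne, map_eq_zero]
    exact ha0 l
  have hfe : f = algebraMap k K (a j) + (algebraMap k K (a l) * x l +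
      algebraMap k K (a m) * x m) := by
    rw [hf, hsum3, hj, mul_one]
  have hxl : x l = (f - algebraMap k K (a j) - algebraMap k K (a m) * x m) /
      algebraMap k K (a l) := by
    rw [hfe]
    field_simp
    ring
  -- the polynomial
  obtain ⟨y, hy⟩ : ∃ y : Fin 3 → Polynomial F, y = fun i => if i = j then 1 else if i = m then
    Polynomial.X else Polynomial.C ((fF - algebraMap k F (a j)) / algebraMap k F (a l)) -
      Polynomial.C (algebraMap k F (a m) / algebraMap k F (a l)) * Polynomial.X := ⟨_, rfl⟩
  have hyj : y j = 1 := by rw [hy]; simp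
  have hym : y m = Polynomial.X := by
    rw [hy]
    simp [hjm.symm]
  have hyl : y l = Polynomial.C ((fF - algebraMap k F (a j)) / algebraMap k F (a l)) -
      Polynomial.C (algebraMap k F (a m) / algebraMap k F (a l)) * Polynomial.X := by
    rw [hy]
    simp [hjl.symm, hlm]
  have hyd : ∀ i, (y i).natDegree ≤ 1 := by
    intro i
    rcases hall i with h | h | h
    · rw [h, hyj, Polynomial.natDegree_one]
      exact Nat.zero_le _
    · rw [h, hyl]
      refine (Polynomial.natDegree_sub_le _ _).trans (max_le ?_ ?_)
      · rw [Polynomial.natDegree_C]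
        exact Nat.zero_le _
      · exact (Polynomial.natDegree_C_mul_le _ _).trans Polynomial.natDegree_X_le
    · rw [h, hym]
      exact Polynomial.natDegree_X_le
  obtain ⟨P, hP⟩ : ∃ P, P = aeval y Φ := ⟨_, rfl⟩
  have hPd : P.natDegree ≤ N := by
    rw [hP]
    exact Pool.Agent.H32.SL.dgc_natDegree N Φ hΦ y hyd
  -- value at `x m`
  have hPx : Polynomial.aeval (x m) P = 0 := by
    have h1 : Polynomial.aeval (x m) P =
        aeval (fun i => Polynomial.aeval (x m) (y i)) Φ := by
      rw [hP]
      have h2 := MvPolynomial.comp_aeval (R := k) (f := y)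
        ((Polynomial.aeval (x m) : Polynomial F →ₐ[F] K).restrictScalars k)
      exact congrArg (fun g => g Φ) h2
    rw [h1]
    have h2 : (fun i => Polynomial.aeval (x m) (y i)) = x := by
      funext i
      rcases hall i with h | h | h
      · rw [h, hyj, map_one, hj]
      · rw [h, hyl, map_sub, map_mul, Polynomial.aeval_C, Polynomial.aeval_C,
          Polynomial.aeval_X, hxl, ← hfF']
        rw [map_div₀, map_div₀, map_sub, ← IsScalarTower.algebraMap_apply k F K,
          ← IsScalarTower.algebraMap_apply k F K, ← IsScalarTower.algebraMap_apply k F K]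
        change (↑fF - algebraMap k K (a j)) / algebraMap k K (a l) -
          algebraMap k K (a m) / algebraMap k K (a l) * x m = _
        ring
      · rw [h, hym, Polynomial.aeval_X]
    rw [h2, hΦx]
  -- `P` is not zero
  have hP0 : P ≠ 0 := by
    intro hP0
    -- values at constants
    have h1 : ∀ γ τ : k, eval (fun i => if i = j then 1 else if i = m then γ else
        (τ - a j) / a l - a m / a l * γ) Φ = 0 := by
      intro γ τ
      obtain ⟨z, hz⟩ : ∃ z : Fin 3 → Polynomial k, z = fun i => if i = j then 1 else if i = m then
        Polynomial.C γ else (Polynomial.X - Polynomial.C (a j)) * Polynomial.C (a l)⁻¹ -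
          Polynomial.C (a m / a l * γ) := ⟨_, rfl⟩
      have hq : aeval z Φ = 0 := by
        have h3 : Polynomial.aeval f (aeval z Φ) = 0 := by
          have h4 : Polynomial.aeval f (aeval z Φ) =
              aeval (fun i => Polynomial.aeval f (z i)) Φ := by
            have h2 := MvPolynomial.comp_aeval (R := k) (f := z)
              (Polynomial.aeval f : Polynomial k →ₐ[k] K)
            exact congrArg (fun g => g Φ) h2
          have h5 : Polynomial.aeval (algebraMap k K γ) P =
              aeval (fun i => Polynomial.aeval (algebraMap k K γ) (y i)) Φ := by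
            rw [hP]
            have h2 := MvPolynomial.comp_aeval (R := k) (f := y)
              ((Polynomial.aeval (algebraMap k K γ) : Polynomial F →ₐ[F] K).restrictScalars k)
            exact congrArg (fun g => g Φ) h2
          rw [h4]
          rw [hP0, map_zero] at h5
          rw [h5]
          have h6 : (fun i => Polynomial.aeval f (z i)) =
              (fun i => Polynomial.aeval (algebraMap k K γ) (y i)) := by
            funext i
            rw [hz]
            rcases hall i with h | h | h
            · rw [h, hyj]
              simp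
            · rw [h, hyl]
              simp only [hjl.symm, hlm, if_false, map_sub, map_mul, Polynomial.aeval_C,
                Polynomial.aeval_X]
              rw [map_div₀, map_div₀, map_div₀, map_inv₀, map_sub,
                ← IsScalarTower.algebraMap_apply k F K,
                ← IsScalarTower.algebraMap_apply k F K, ← IsScalarTower.algebraMap_apply k F K]
              change _ = ((fF : K) - algebraMap k K (a j)) / algebraMap k K (a l) -
                algebraMap k K (a m) / algebraMap k K (a l) * algebraMap k K γ
              rw [hfF']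
              ring
            · rw [h, hym]
              simp [hjm.symm]
          rw [h6]
        by_contra hne
        exact hft ⟨_, hne, h3⟩
      have h7 := congrArg (Polynomial.aeval τ) hq
      rw [map_zero] at h7
      have h8 : Polynomial.aeval τ (aeval z Φ) =
          aeval (fun i => Polynomial.aeval τ (z i)) Φ := by
        have h2 := MvPolynomial.comp_aeval (R := k) (f := z)
          (Polynomial.aeval τ : Polynomial k →ₐ[k] k)
        exact congrArg (fun g => g Φ) h2
      rw [h8] at h7
      have h9 : (fun i => Polynomial.aeval τ (z i)) = fun i => if i = j then 1 else if i = m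
          then γ else (τ - a j) / a l - a m / a l * γ := by
        funext i
        rw [hz]
        rcases hall i with h | h | h
        · rw [h]
          simp
        · rw [h]
          simp only [hjl.symm, hlm, if_false, map_sub, map_mul, Polynomial.aeval_C,
            Polynomial.aeval_X, Algebra.algebraMap_self, RingHom.id_apply]
          ring
        · rw [h]
          simp [hjm.symm]
      rw [h9, aeval_eq_eval] at h7
      exact h7
    have h2 : X j * Φ = 0 := by
      refine MvPolynomial.funext fun p => ?_
      rw [map_mul, eval_X, map_zero]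
      by_cases hpj : p j = 0
      · rw [hpj, zero_mul]
      · have h3 := h1 (p m / p j) (a l * (p l / p j) + a j + a m * (p m / p j))
        have h4 : p = p j • (fun i => if i = j then 1 else if i = m then p m / p j else
            ((a l * (p l / p j) + a j + a m * (p m / p j)) - a j) / a l -
              a m / a l * (p m / p j)) := by
          funext i
          have hal' := ha0 l
          rcases hall i with h | h | h
          · rw [h]
            simp
          · rw [h]
            simp only [Pi.smul_apply, hjl.symm, hlm, if_false, smul_eq_mul]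
            field_simp
            ring
          · rw [h]
            simp only [Pi.smul_apply, hjm.symm, if_false, if_true, smul_eq_mul]
            field_simp
        rw [h4, Pool.Agent.H32.SL.dgc_smul N Φ hΦ, h3]
        simp
    exact (mul_ne_zero (X_ne_zero j) hΦ0) h2
  -- the field generated by `x m`
  have hint : IsIntegral F (x m) := IsIntegral.of_finite F (x m)
  have hmem : ∀ i, x i ∈ (IntermediateField.adjoin F {x m}).restrictScalars k := by
    intro i
    rw [IntermediateField.mem_restrictScalars]
    have hxm : x m ∈ IntermediateField.adjoin F {x m} :=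
      IntermediateField.mem_adjoin_simple_self F _
    have hcst : ∀ b : k, algebraMap k K b ∈ IntermediateField.adjoin F {x m} := fun b => by
      rw [IsScalarTower.algebraMap_apply k F K]
      exact IntermediateField.algebraMap_mem _ _
    rcases hall i with h | h | h
    · rw [h, hj]
      exact one_mem _
    · rw [h, hxl]
      refine div_mem (sub_mem (sub_mem ?_ (hcst _)) (mul_mem (hcst _) hxm)) (hcst _)
      rw [← hfF']
      exact IntermediateField.algebraMap_mem _ fF
    · rw [h]
      exact hxm
  have hle : IntermediateField.adjoin k (Set.range x) ≤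
      (IntermediateField.adjoin F {x m}).restrictScalars k := by
    refine IntermediateField.adjoin_le_iff.2 ?_
    rintro _ ⟨i, rfl⟩
    exact hmem i
  have h1 : Module.finrank F (IntermediateField.adjoin F {x m}) ≤ N := by
    rw [IntermediateField.adjoin.finrank hint]
    refine le_trans ?_ hPd
    exact Polynomial.natDegree_le_natDegree (minpoly.degree_le_of_ne_zero F (x m) hP0 hPx)
  have h2 : Module.finrank (IntermediateField.adjoin F {x m}) K ≤ n :=
    dep_finrank _ _ n hdep fun z hz => (IntermediateField.mem_restrictScalars k).1 (hle hz)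
  rw [← Module.finrank_mul_finrank F (IntermediateField.adjoin F {x m}) K, mul_comm]
  exact Nat.mul_le_mul h2 h1

end Pool.Agent.H10.SF
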