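import Pool.Agent.H3.SF.Tg2

/-!
# DSX: the equations for the smaller field
-/

set_option autoImplicit false

namespace Pool.Agent.H10.SF

open MvPolynomial SC Pool.Agent.H27.LV
open Pool.Agent.H84.SM (dp cr dt)
open Pool.Agent.H92.SF Pool.Agent.H3.SF

theorem hom_scale {A L σ : Type} [CommRing A] [CommRing L] [Fintype σ] (f : A →+* L) {n : ℕ}
    {q : MvPolynomial σ A} (hq : q.IsHomogeneous n) (y : σ → L) (t : L) :
    eval₂ f (fun i => t * y i) q = t ^ n * eval₂ f y q := by
  rw [eval₂_eq', eval₂_eq', Finset.mul_sum]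
  refine Finset.sum_congr rfl fun m hm => ?_
  have h1 : ∑ j, m j = n := by
    have := hq (mem_support_iff.1 hm)
    rw [Finsupp.weight_apply, Finsupp.sum_fintype _ _ (by simp)] at this
    simpa using this
  rw [← h1, ← Finset.prod_pow_eq_pow_sum]
  simp only [mul_pow, Finset.prod_mul_distrib]
  ring

theorem vl_itg {k F K : Type} [Field k] [Field F] [Algebra k F] [Field K] [Algebra k K]
    {u : Fin 3 → F} {φ : Bb k u →ₐ[k] K} (b : Bb k u) (y : K) (h : Vl u φ (b : F) y) :
    y = φ b := by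
  obtain ⟨h, c, h1, h2, h3⟩ := h
  have h4 : h * b = c := Subtype.ext h2
  rw [← h4, map_mul] at h3
  exact mul_left_cancel₀ h1 h3

theorem itg_vl {k F K : Type} [Field k] [Field F] [Algebra k F] [Field K] [Algebra k K]
    {u : Fin 3 → F} (φ : Bb k u →ₐ[k] K) (b : Bb k u) : Vl u φ (b : F) (φ b) :=
  ⟨1, b, by simp, by simp, by simp⟩

theorem lift_itg {k F σ : Type} [Field k] [Field F] [Algebra k F] (u : Fin 3 → F)
    (q : MvPolynomial σ F) (h : ∀ a, Itg k u (q.coeff a)) :
    ∃ q0 : MvPolynomial σ (Bb k u), map ((Bb k u).val : Bb k u →+* F) q0 = q := by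
  refine mem_range_map_iff_coeffs_subset.2 ?_
  intro z hz
  obtain ⟨a, _, rfl⟩ := mem_coeffs_iff.1 hz
  exact ⟨⟨_, h a⟩, rfl⟩

theorem cr_scale {K0 K : Type} [Field K0] [Field K] (ι : K0 →+* K) (μ : K) (x0 y0 : Fin 3 → K0)
    (i : Fin 3) : cr (fun j => ι (x0 j)) (fun j => μ * ι (y0 j)) i = μ * ι (cr x0 y0 i) := by
  unfold cr
  rw [map_sub, map_mul, map_mul]
  ring

theorem pf_DSX : T_DSX := by
  intro k F _ _ _ _ _ u dd K0 K _ _ _ _ ι φ0 φ D D0 μ x0 hμ hD hφ
  have hval : Function.Injective ((Bb k u).val : Bb k u →+* F) := fun a b h => Subtype.ext h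
  have e2 : ∀ (σ : Type) [Fintype σ] (n : ℕ) (q : MvPolynomial σ (Bb k u)) (y : σ → K)
      (y0 : σ → K0), q.IsHomogeneous n → (∀ i, y i = μ * ι (y0 i)) →
      eval₂ (φ : Bb k u →+* K) y q = μ ^ n * ι (eval₂ (φ0 : Bb k u →+* K0) y0 q) := by
    intro σ _ n q y y0 hq hy
    rw [show y = fun i => μ * ι (y0 i) from funext hy, hom_scale _ hq]
    congr 1
    have h1 : (φ : Bb k u →+* K) = (ι : K0 →+* K).comp (φ0 : Bb k u →+* K0) := by
      ext b
      exact (hφ b).symm
    rw [h1]
    exact (eval₂_comp_left (ι : K0 →+* K) (φ0 : Bb k u →+* K0) y0 q).symm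
  constructor
  · intro c W hc hW h
    obtain ⟨n, τ, ht, -⟩ := hc.tw
    obtain ⟨q, hq⟩ := lift_itg u (c.coeff 0) (hc.itg 0)
    have hcj : ∀ j, 0 < j → c.coeff j = 0 := fun j hj =>
      Polynomial.coeff_eq_zero_of_natDegree_lt (by rw [hc.dg]; exact hj)
    have hqh : q.IsHomogeneous n := by
      refine IsHomogeneous.of_map hval ?_
      rw [hq]
      exact (ht 0).1 (by omega)
    have hq2 : ∀ a, (c.coeff 0).coeff a = ((q.coeff a : Bb k u) : F) := by
      intro a
      rw [← hq, coeff_map]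
      rfl
    have hW0 : W = Polynomial.C (map (φ : Bb k u →+* K) q) := by
      refine Polynomial.ext fun j => MvPolynomial.ext _ _ fun a => ?_
      rcases Nat.eq_zero_or_pos j with rfl | hj
      · have h1 := hW 0 a
        rw [hq2] at h1
        rw [vl_itg _ _ h1, Polynomial.coeff_C_zero, coeff_map]
        rfl
      · have h1 := hW j a
        rw [hcj j hj, coeff_zero] at h1
        have h2 := vl_itg (0 : Bb k u) _ (by simpa using h1)
        rw [h2, map_zero, Polynomial.coeff_C_of_ne_zero (by omega), coeff_zero]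
    refine ⟨Polynomial.C (map (φ0 : Bb k u →+* K0) q), ?_, ?_⟩
    · intro j a
      rcases Nat.eq_zero_or_pos j with rfl | hj
      · rw [Polynomial.coeff_C_zero, coeff_map, hq2]
        exact itg_vl φ0 _
      · rw [hcj j hj, Polynomial.coeff_C_of_ne_zero (by omega), coeff_zero, coeff_zero]
        have := itg_vl φ0 (0 : Bb k u)
        rwa [map_zero] at this
    · have hev : ∀ (R : Type) [Field R] (θ : Bb k u →+* R) (p : Fin 3 → R) (w : R),
          ev2 (RingHom.id R) p w (Polynomial.C (map θ q)) = eval₂ θ ![p 1, p 2] q := by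
        intro R _ θ p w
        simp only [ev2, Polynomial.coe_eval₂RingHom, Polynomial.eval₂_C, coe_eval₂Hom]
        rw [eval₂_map, RingHom.id_comp]
      rw [hW0] at h
      unfold evc at h ⊢
      rw [hev] at h ⊢
      rw [e2 (Fin 2) n q _ ![cr x0 (fun i => D0 (x0 i)) 1, cr x0 (fun i => D0 (x0 i)) 2] hqh]
        at h
      · exact (map_eq_zero ι).1 ((mul_eq_zero.1 h).resolve_left (pow_ne_zero _ hμ))
      · have h3 : (fun i => D (ι (x0 i))) = fun i => μ * ι (D0 (x0 i)) := funext fun i => hD _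
        rw [h3]
        refine Fin.forall_fin_two.2 ⟨?_, ?_⟩
        · exact cr_scale (ι : K0 →+* K) μ x0 (fun i => D0 (x0 i)) 1
        · exact cr_scale (ι : K0 →+* K) μ x0 (fun i => D0 (x0 i)) 2
  · intro A b0 hb h
    have e1 : aeval (fun i => ι (x0 i)) A = ι (aeval x0 A) := by
      have h1 : (aeval (fun i => ι (x0 i)) : MvPolynomial (Fin 3) k →ₐ[k] K) =
          ι.comp (aeval x0) := by
        refine MvPolynomial.algHom_ext fun i => ?_
        simp
      rw [h1]
      rfl
    have e3 : dt (fun j => ι (x0 j)) (fun i => D (ι (x0 i))) (fun i => D (D (ι (x0 i)))) =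
        μ ^ 3 * ι (dt x0 (fun i => D0 (x0 i)) (fun i => D0 (D0 (x0 i)))) := by
      have e4 : (fun i => D (D (ι (x0 i)))) = fun i => D μ * ι (D0 (x0 i)) +
          μ ^ 2 * ι (D0 (D0 (x0 i))) := by
        funext i
        rw [hD, Derivation.leibniz, hD]
        simp only [smul_eq_mul]
        ring
      rw [e4, show (fun i => D (ι (x0 i))) = fun i => μ * ι (D0 (x0 i)) from funext fun i => hD _]
      unfold dt dp cr
      simp only [Fin.sum_univ_three, Fin.isValue, zero_add, Fin.reduceAdd, map_add, map_mul,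
        map_sub]
      ring
    rw [e1, e3, e2 (Fin 3) 3 b0 _ (fun i => D0 (x0 i)) hb (fun i => hD _)] at h
    have h5 : μ ^ 3 * ι (aeval x0 A * dt x0 (fun i => D0 (x0 i)) (fun i => D0 (D0 (x0 i))) +
        eval₂ (φ0 : Bb k u →+* K0) (fun i => D0 (x0 i)) b0) = 0 := by
      rw [map_add, map_mul, ← h]
      ring
    exact (map_eq_zero ι).1 ((mul_eq_zero.1 h5).resolve_left (pow_ne_zero _ hμ))

end Pool.Agent.H10.SF
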