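import Pool.Agent.H3.SF.Tg2

/-!
# CON: weight 3 and small denominators
-/

set_option autoImplicit false

namespace Pool.Agent.H10.SF

open MvPolynomial SC Pool.Agent.H27.LV
open Pool.Agent.H84.SM (dp cr dt)
open Pool.Agent.H92.SF Pool.Agent.H3.SF

theorem hom0 {L σ : Type} [CommRing L] {n : ℕ} (c : L) {p : MvPolynomial σ L}
    (hp : p.IsHomogeneous n) : (C c * p).IsHomogeneous n := by
  have := (isHomogeneous_C σ c).mul hp
  rwa [zero_add] at this

theorem gx_hom {k F : Type} [Field k] [Field F] [Algebra k F] (dd : Fin 3 → Derivation k F F)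
    (G : F) (i : Fin 3) : (gx dd G i).IsHomogeneous 1 := by
  unfold gx cr
  exact (hom0 _ (isHomogeneous_X _ _)).sub (hom0 _ (isHomogeneous_X _ _))

theorem bet_hom {k F : Type} [Field k] [Field F] [Algebra k F] (u : Fin 3 → F)
    (dd : Fin 3 → Derivation k F F) (J : MvPolynomial (Fin 3) k) (G : F)
    (b : MvPolynomial (Fin 3) F) (hb : b.IsHomogeneous 3) : (bet u dd J G b).IsHomogeneous 3 := by
  unfold bet
  refine IsHomogeneous.sub ?_ ?_
  · have := hb.aeval (fun i => C (aeval u J ^ 2) * gx dd G i) (n := 1)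
      (fun i => hom0 _ (gx_hom dd G i))
    simpa using this
  · have h1 : (hq (fun i j => C (hes dd G i j)) (gx dd G) (gx dd G)).IsHomogeneous 2 := by
      unfold hq
      refine IsHomogeneous.sum _ _ _ fun i _ => IsHomogeneous.sum _ _ _ fun j _ => ?_
      exact (hom0 _ (gx_hom dd G i)).mul (gx_hom dd G j)
    have h2 : (dp (fun i => C (u i)) X : MvPolynomial (Fin 3) F).IsHomogeneous 1 := by
      unfold dp
      exact IsHomogeneous.sum _ _ _ fun i _ => hom0 _ (isHomogeneous_X _ _)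
    exact (hom0 _ h1).mul h2

theorem hq_C {L : Type} [CommRing L] (c : L) (H : Fin 3 → Fin 3 → MvPolynomial (Fin 3) L)
    (a b : Fin 3 → MvPolynomial (Fin 3) L) (d : MvPolynomial (Fin 3) L) (e : L) :
    C (c * e) * hq H a b * d = C c * (C e * hq H a b * d) := by
  rw [C_mul]
  ring

/-- exponents at most 3 -/
noncomputable def Tex : Finset (Fin 3 →₀ ℕ) := Finset.Iic (Finsupp.equivFunOnFinite.symm fun _ => 3)

theorem card_Tex : Tex.card = 64 := by
  unfold Tex
  rw [Finsupp.card_Iic]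
  rw [Finset.prod_subset (Finset.subset_univ _)]
  · simp
  · intro i _ hi
    rw [Finsupp.notMem_support_iff] at hi
    rw [hi]
    rfl

theorem mem_Tex {L : Type} [CommRing L] {p : MvPolynomial (Fin 3) L} (hp : p.IsHomogeneous 3)
    {a : Fin 3 →₀ ℕ} (ha : a ∉ Tex) : p.coeff a = 0 := by
  by_contra h
  apply ha
  unfold Tex
  rw [Finset.mem_Iic]
  intro i
  have h1 := hp h
  rw [Finsupp.weight_apply, Finsupp.sum_fintype _ _ (by simp)] at h1
  simp only [Pi.one_apply, smul_eq_mul, mul_one] at h1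
  have h2 : a i ≤ ∑ j, a j := Finset.single_le_sum (fun j _ => Nat.zero_le (a j)) (Finset.mem_univ i)
  simp only [Finsupp.equivFunOnFinite_symm_apply_apply]
  omega

theorem pf_CON (hCN1 : T_CN1) (hCN2 : T_CN2) (hCN3 : T_CN3) (hDCX : T_DCX) (hSF1 : T_SF1)
    (_hSF2 : T_SF2) : T_CON := by
  intro δ j0 c0
  refine ⟨512, 100 * (j0 + 1), by norm_num, ?_⟩
  intro k F _ _ _ _ _ u dd J hS m G hm hG P hP1 hPT hcf
  obtain ⟨-, hui, hpi, hdd, -, -, -⟩ := hSF1 k F u dd δ j0 c0 J hS
  obtain ⟨b, hb, hPs, hK⟩ := hCN1 k F u dd δ j0 c0 J hS m G (by omega) hG P hP1 hPT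
  have hβ : ∀ a, ((Ps u dd J m G P).coeff 0).coeff a = (bet u dd J G b).coeff a := by
    intro a
    rw [hPs, Polynomial.coeff_add, Polynomial.coeff_C_zero]
    unfold zv
    rw [Polynomial.mul_coeff_zero, Polynomial.coeff_X_zero, mul_zero, zero_add]
  have hβh := bet_hom u dd J G b hb.hb
  choose hf Hf hf1 hf2 hf3 hf4 using fun a => hcf 0 a
  set H : MvPolynomial (Fin 3) k := ∏ a ∈ Tex, Hf a with hHdef
  set h : ℕ := ∑ a ∈ Tex, hf a with hhdef
  have hH : H.IsHomogeneous h := IsHomogeneous.prod _ _ _ fun a _ => hf2 a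
  have hH0 : H ≠ 0 := Finset.prod_ne_zero_iff.2 fun a _ => hf3 a
  have hle : 512 * h ≤ 64 * m := by
    rw [hhdef, Finset.mul_sum, ← card_Tex, ← smul_eq_mul (Tex.card) m]
    exact Finset.sum_le_card_nsmul _ _ _ fun a _ => (hf1 a).le
  have hmul : ∀ a b : F, Itg k u a → Itg k u b → Itg k u (a * b) :=
    fun a b h1 h2 => (Bb k u).mul_mem h1 h2
  have hI1 : ∀ a, Itg k u (aeval u H * ((bet u dd J G b).coeff a / G)) := by
    intro a
    by_cases ha : a ∈ Tex
    · rw [hHdef, ← Finset.mul_prod_erase Tex Hf ha, map_mul, mul_right_comm]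
      refine hmul _ _ ?_ (hpi _)
      rw [← hβ]
      exact hf4 a
    · rw [mem_Tex hβh ha, zero_div, mul_zero]
      exact (Bb k u).zero_mem
  obtain ⟨LL, _, _, π, v, EL, d, hD⟩ := hDCX k F u dd δ j0 c0 J hS m G (by omega) hG
  have hI2 := hCN2 k F u dd δ j0 c0 J hS m G (by omega) hG LL π v EL d hD b h H hb hH hH0
    (by omega) hI1
  have hI3 := hCN3 k F u dd δ j0 c0 J hS m G (by omega) hG LL π v EL d hD b h H hb hH hH0
    (by omega) hI1 hI2
  have hA : (J ^ 6 * H).IsHomogeneous (6 * j0 + h) := by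
    have := (hS.Jh.pow 6).mul hH
    rwa [mul_comm j0 6] at this
  have hAe : aeval u (J ^ 6 * H) = aeval u J ^ 6 * aeval u H := by
    rw [map_mul, map_pow]
  refine ⟨6 * j0 + h, J ^ 6 * H, C (aeval u (J ^ 6 * H)) * b, by omega, ?_, ?_⟩
  · refine ⟨hA, mul_ne_zero (pow_ne_zero _ hS.J0) hH0, ?_, hom0 _ hb.hb, ?_, ?_, ?_, ?_⟩
    · exact Dvd.dvd.mul_right (dvd_pow_self J (by norm_num)) H
    · intro a
      rw [coeff_C_mul, hAe]
      exact hI3 a
    · intro a
      have h0 := hb.hm a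
      unfold Hm at h0 ⊢
      have h1 : eu u dd (aeval u (J ^ 6 * H)) = ((6 * j0 + h : ℕ) : F) * aeval u (J ^ 6 * H) := by
        have h2 := hA.sum_X_mul_pderiv
        have h3 := congrArg (aeval u) h2
        rw [map_sum, Fin.sum_univ_three, map_nsmul, nsmul_eq_mul] at h3
        unfold eu
        rw [Fin.sum_univ_three, ← h3]
        simp only [Derivation.add_apply, Derivation.smul_apply, smul_eq_mul, hdd]
        have hx : ∀ l : Fin 3, aeval u (X l * pderiv l (J ^ 6 * H)) =
            u l * aeval u (pderiv l (J ^ 6 * H)) := fun l => by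
          rw [map_mul (aeval u) (X l), aeval_X]
        rw [hx, hx, hx]
      rw [coeff_C_mul, Derivation.leibniz, h0, h1]
      simp only [smul_eq_mul, Int.cast_zero, zero_mul, mul_zero, zero_add, Int.cast_natCast]
      ring
    · have h0 := hb.inv
      have h1 : ∀ i, C (u i) * pderiv i (C (aeval u (J ^ 6 * H)) * b) =
          C (aeval u (J ^ 6 * H)) * (C (u i) * pderiv i b) := by
        intro i
        rw [pderiv_C_mul]
        ring
      rw [Finset.sum_congr rfl fun i _ => h1 i, ← Finset.mul_sum, h0, mul_zero]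
    · intro a
      have h1 : aeval (fun i => C (aeval u J ^ 2) * gx dd G i) (C (aeval u (J ^ 6 * H)) * b) -
          C (aeval u (J ^ 6 * H) * aeval u J ^ 6) *
            hq (fun i j => C (hes dd G i j)) (gx dd G) (gx dd G) * dp (fun i => C (u i)) X =
          C (aeval u (J ^ 6 * H)) * bet u dd J G b := by
        rw [hq_C, map_mul, aeval_C, algebraMap_eq, ← mul_sub]
        rfl
      rw [h1, coeff_C_mul, mul_div_assoc, hAe, mul_assoc]
      refine hmul _ _ ?_ (hI1 a)
      rw [← map_pow]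
      exact hpi _
  · intro K _ _ φ D x W b0 hx _ hW h0 hb0
    have h1 := hK K φ D x W (J ^ 6 * H) b0 hx hW hb0
    rw [← h1, h0, mul_zero]

end Pool.Agent.H10.SF
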